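import Pool.Agent.E8helper20.CTW.Stm
import Pool.Agent.E8helper96.CTM.Sel1
import Pool.Agent.E8helper89.CTM.Sup
import Pool.Agent.E8helper50.CTM.RAMM
import Pool.Agent.E8helper7.CTM.Loc1
import Pool.Agent.E8helper7.CTM.Cub1
import Pool.Agent.Y737.CTK.Trf
import Pool.Agent.Y350.CTK.Mw
import Pool.Agent.Y891.CTK.Sht
import Pool.Agent.Y405.CTK.MwcTor
import Pool.Agent.Y811.CTK.PLC
import Pool.Agent.Y954.CTK.SHC
import Pool.Agent.H70CT.SHC
import Pool.Agent.Y319.CT.FF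
import Pool.Agent.Y379.CT.Cub
import Pool.Agent.Y674.CT.PT
import Pool.Agent.Y350.CT.REC

/-!
# Project CTW, W11 TRIW: the descent over `K` for `y² + ω D y = x³`
-/

set_option autoImplicit false
set_option linter.unusedSectionVars false

open scoped Classical

namespace Pool.Agent.E8helper87.CTW

open NumberField WeierstrassCurve
open Pool.Agent.Y692.QS (Ei w nr toC)
open Pool.Agent.Y715.T.Rec (cs)
open Pool.Agent.Y715.T.RecG (Pq)
open Pool.Agent.Y703.CT
open Pool.Agent.Y715.T.Gi Pool.Agent.Y715.T.Nr Pool.Agent.Y715.T.Df Pool.Agent.Y715.T.Ell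
open Pool.Agent.Y48.CT.SEL (pr0)
open Pool.Agent.Y696.CTK (ED IsTam Tri tors)
open Pool.Agent.E8helper20.CTM (c2 c3 lf nK1)
open Pool.Agent.E8helper20.CTW (KerW)
open Pool.Agent.E8helper96.CTM (w0 cur1 kc_cur G_zero G vec selH_add)
open Pool.Agent.XL6 (SelH)

variable {J : Type} [Fintype J] {π : J → Ei} {e : J → ZMod 3}
variable {i₀ : QB} {hi : i₀ ^ 2 + i₀ + 1 = 0}

lemma w_ne (hD : Dt π e) : w * pD π e ≠ 0 := mul_ne_zero w0 (pr0 hD _)

lemma w_eq (π : J → Ei) (e : J → ZMod 3) : (3 : Ei) ^ 0 * w ^ 1 * pD π e = w * pD π e := by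
  rw [pow_zero, pow_one, one_mul]

/-- `ω D` is not a cube -/
lemma a_neW (hD : Dt π e) {u : QB} {a : GK i₀ → ZMod 3}
    (hT : Tw hi (w * pD π e) u a) : ∃ σ, a σ ≠ 0 := by
  by_contra hcon
  push Not at hcon
  have hcur := cur1 (π := π) (e := e) 0 1 (by norm_num) (by norm_num)
  have hT' : Tw hi (3 ^ 0 * w ^ 1 * pD π e) u a := by
    rw [w_eq]
    exact hT
  have hb2 : Kc hi (G π (vec ((1 : ℕ) : ZMod 3) (2 * ((0 : ℕ) : ZMod 3)) e)) (fun σ => -a σ) :=
    kc_cur hD (neg_one_pow_eq_or _ 0) hcur hT'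
  have h1 : ((1 : ℕ) : ZMod 3) = 0 := G_zero hD hb2 (fun σ => by rw [hcon σ, neg_zero]) none
  exact absurd h1 (by decide)

/-- the order of the Selmer group -/
lemma ncard_sel [Nonempty J] (hD : Dt π e) {u : QB} {a : GK i₀ → ZMod 3}
    (hT : Tw hi (w * pD π e) u a) : (SelH hi a).ncard = 3 * nK1 1 0 π e := by
  have hT' : Tw hi (3 ^ 0 * w ^ 1 * pD π e) u a := by
    rw [w_eq]
    exact hT
  have h := Pool.Agent.E8helper96.CTM.t_SELM1 Pool.Agent.Y350.CT.rec
    Pool.Agent.E8helper89.CTM.t_SUPM Pool.Agent.E8helper50.CTM.t_RAMM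
    Pool.Agent.E8helper7.CTM.t_LOCM1 Pool.Agent.E8helper7.CTM.t_CUBM1
    Pool.Agent.Y319.CT.t_FF Pool.Agent.Y379.CT.t_CUB Pool.Agent.Y674.CT.t_PT
    0 1 (by norm_num) (by norm_num) (Or.inr one_ne_zero) J π e hD i₀ hi u a hT'
  rw [Nat.cast_one, Nat.cast_zero] at h
  exact h

/-- the kernel -/
lemma nK_iff (π : J → Ei) (e : J → ZMod 3) : nK1 1 0 π e = 1 ↔ KerW π e := by
  have hl : ∀ α : Ei, lf 1 0 α = c2 α := by
    intro α
    unfold lf
    rw [one_mul, zero_mul, add_zero]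
  have hz : ∀ j, ∑ i, e i * cs (π j) (π i) * ((0 : J → ZMod 3) i - (0 : J → ZMod 3) j) =
      lf 1 0 (π j) * (0 : J → ZMod 3) j := by
    intro j
    simp
  unfold nK1
  rw [Nat.card_eq_one_iff_unique]
  constructor
  · rintro ⟨hs, -⟩ v hv
    have hv' : ∀ j, ∑ i, e i * cs (π j) (π i) * (v i - v j) = lf 1 0 (π j) * v j := by
      intro j
      rw [hl]
      exact hv j
    have h1 := congrArg Subtype.val (hs.elim ⟨v, hv'⟩ ⟨0, hz⟩)
    exact fun j => congrFun h1 j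
  · intro hk
    have h0 : ∀ x : {v : J → ZMod 3 //
        ∀ j, ∑ i, e i * cs (π j) (π i) * (v i - v j) = lf 1 0 (π j) * v j}, x.1 = 0 := by
      intro x
      funext j
      exact hk x.1 (fun j => by rw [← hl]; exact x.2 j) j
    exact ⟨⟨fun x y => Subtype.ext (by rw [h0 x, h0 y])⟩, ⟨⟨0, hz⟩⟩⟩

/-- the trivial character -/
lemma zero_sel (a : GK i₀ → ZMod 3) : (fun _ => 0 : GK i₀ → ZMod 3) ∈ SelH hi a := by
  refine ⟨IsLocallyConstant.const 0, fun σ τ => (add_zero 0).symm, fun p _ ι => ⟨0, ?_⟩⟩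
  intro τ σ _
  rw [Pool.Agent.Y715.T.Df.pm_zero, Pool.Agent.Y155.CT.jj_zero, tt_zero, sub_zero]

/-- the multiples of the class of the curve -/
lemma mul_sel (hD : Dt π e) {u : QB} {a : GK i₀ → ZMod 3}
    (hT : Tw hi (w * pD π e) u a) (c : ZMod 3) : (fun σ => c * a σ) ∈ SelH hi a := by
  have h := selH_add (w_ne hD) hT (zero_sel (hi := hi) a) (-c)
  have e1 : (fun σ => (0 : ZMod 3) + -c * -a σ) = fun σ => c * a σ := by
    funext σ
    ring
  rw [e1] at h
  exact h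

/-- the number of the multiples of the class of the curve -/
lemma ncard_mul {a : GK i₀ → ZMod 3} (ha : ∃ σ, a σ ≠ 0) :
    (Set.range fun (c : ZMod 3) (σ : GK i₀) => c * a σ).ncard = 3 := by
  have hinj : Function.Injective fun (c : ZMod 3) (σ : GK i₀) => c * a σ := by
    obtain ⟨σ, hσ⟩ := ha
    intro c c' h
    exact mul_right_cancel₀ hσ (congrFun h σ)
  rw [← Set.image_univ, Set.ncard_image_of_injective _ hinj, Set.ncard_univ, Nat.card_zmod]

/-- the Selmer group is generated by the class of the curve iff the kernel is trivial -/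
lemma sel_iff [Nonempty J] (hD : Dt π e) {u : QB} {a : GK i₀ → ZMod 3}
    (hT : Tw hi (w * pD π e) u a) : Sel1 hi a ↔ KerW π e := by
  have ha := a_neW hD hT
  have h1 := ncard_sel hD hT
  have h2 := ncard_mul ha
  have h3 : (Set.range fun (c : ZMod 3) (σ : GK i₀) => c * a σ) ⊆ SelH hi a := by
    rintro _ ⟨c, rfl⟩
    exact mul_sel hD hT c
  rw [← nK_iff]
  constructor
  · intro hs
    have h4 : SelH hi a = Set.range fun (c : ZMod 3) (σ : GK i₀) => c * a σ := by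
      refine Set.Subset.antisymm (fun h hh => ?_) h3
      obtain ⟨c, hc⟩ := hs h hh.1 hh.2.1 hh.2.2
      exact ⟨c, (funext hc).symm⟩
    rw [h4, h2] at h1
    omega
  · intro hn h hc hm hloc
    rw [hn, mul_one] at h1
    have hfin : (SelH hi a).Finite := Set.finite_of_ncard_ne_zero (by rw [h1]; norm_num)
    have h4 : (Set.range fun (c : ZMod 3) (σ : GK i₀) => c * a σ) = SelH hi a :=
      Set.eq_of_subset_of_ncard_le h3 (by rw [h1, h2]) hfin
    have h5 : h ∈ SelH hi a := ⟨hc, hm, hloc⟩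
    rw [← h4] at h5
    obtain ⟨c, rfl⟩ := h5
    exact ⟨c, fun σ => rfl⟩

/-- **TRIW**: the descent over `K` -/
theorem t_TRIW : Pool.Agent.E8helper20.CTW.S_TRIW := by
  intro K _ _ j J _ _ π e hD
  have hne : w * pD π e ≠ 0 := w_ne hD
  constructor
  · rintro ⟨h1, h2⟩
    obtain ⟨e', i₀, hi, u, a, Ψ, g, hdata⟩ := Pool.Agent.Y737.CTK.trf K j _ hne
    have hT := hdata.1
    have ha := a_neW hD hT
    have hM := Pool.Agent.Y405.CTK.t_MWC K j _ hne e' i₀ hi u a Ψ g hdata ha h1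
    have hS := Pool.Agent.Y954.CTK.shc Pool.Agent.Y811.CTK.t_PLC K j _ hne e' i₀ hi u a Ψ g
      hdata h2
    exact (sel_iff hD hT).1 (Pool.Agent.H70CT.t_SHC _ hne i₀ hi u a hT ha hS hM)
  · intro hk
    exact ⟨(Pool.Agent.Y350.CTK.mw Pool.Agent.Y737.CTK.trf K j _ hne fun i₀ hi u a hT =>
        Pool.Agent.Y155.CT.t_MWK _ hne i₀ hi u a hT (a_neW hD hT) ((sel_iff hD hT).2 hk)).1,
      Pool.Agent.Y891.CTK.sht Pool.Agent.Y737.CTK.trf K j _ hne fun i₀ hi u a hT =>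
        Pool.Agent.Y155.CT.t_SHK _ hne i₀ hi u a hT ((sel_iff hD hT).2 hk)⟩

end Pool.Agent.E8helper87.CTW
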